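import Pool.Agent.H48.UX.Lay
import Pool.Agent.H86.BX.Pbl
import Pool.Agent.H42.BX.Lgt

/-!
# [H77 UY FRM] UBX, the frame of `PBG`: the fibre product with a group of the crossed homomorphism `kp`

`n = m + 1`, `Nk N (n + 1) = ⊥`, `V = LL N n` (H48/UX/Lay), `Hs p V (P ⧸ N)` the Heisenberg group, `R` any subgroup of it.
* `Pf R`: the pairs `(x, r)` in `P × R` with `x = r.g` modulo `N`. `Pf.mk`, `Pf.lift`, `pf_card`, `pf_pg`, `pf_exp`.
* `frF`: the filtration `f 0 = ⊤`, `f (i + 1) = Nk N i × 1`, `pi (x, r) = r`, as `H42.BX.FG`.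
* `kaF r (u, 1) = upc (r.k u)` on `f (m + 2) = Nk N n × 1`, `0` outside; `frK`: as `H42.BX.Kx`, so `(frK ..).lgx` is the `LGx` of the twisted labels.
-/

set_option autoImplicit false
set_option linter.dupNamespace false

open scoped Classical commutatorElement

noncomputable section

namespace H77.UY

open H35.UB H48.UX H62.BL H86.BX H42.BX
open H63.MA (ep)

section upc

variable {p κ : ℕ}

theorem upc_val (hp : p.Prime) (a : ZMod p) : (upc p κ a).val = a.val * p ^ κ := by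
  have : NeZero p := ⟨hp.ne_zero⟩
  unfold upc
  rw [ZMod.val_natCast, Nat.mod_eq_of_lt]
  rw [pow_succ, mul_comm (p ^ κ)]
  exact Nat.mul_lt_mul_of_pos_right (ZMod.val_lt a) (Nat.pow_pos hp.pos)

theorem upc_add (hp : p.Prime) (a b : ZMod p) : upc p κ (a + b) = upc p κ a + upc p κ b := by
  have : NeZero p := ⟨hp.ne_zero⟩
  unfold upc
  rw [← Nat.cast_add, ZMod.natCast_eq_natCast_iff, ← add_mul, pow_succ, mul_comm (p ^ κ) p]
  refine Nat.ModEq.mul_right' _ ?_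
  rw [ZMod.val_add]
  exact Nat.mod_modEq _ _

theorem upc_zero (hp : p.Prime) : upc p κ (0 : ZMod p) = 0 := by
  have h1 := upc_add (κ := κ) hp 0 0
  rw [add_zero] at h1
  exact left_eq_add.1 h1

theorem upc_neg (hp : p.Prime) (a : ZMod p) : upc p κ (-a) = -upc p κ a := by
  have h1 := upc_add (κ := κ) hp (-a) a
  rw [neg_add_cancel, upc_zero hp] at h1
  exact eq_neg_of_add_eq_zero_left h1.symm

theorem upc_inj (hp : p.Prime) {a b : ZMod p} (h : upc p κ a = upc p κ b) : a = b := by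
  have : NeZero p := ⟨hp.ne_zero⟩
  have h1 := congrArg ZMod.val h
  rw [upc_val hp, upc_val hp] at h1
  exact ZMod.val_injective p (Nat.eq_of_mul_eq_mul_right (Nat.pow_pos hp.pos) h1)

theorem upc_eq0 (hp : p.Prime) {a : ZMod p} : upc p κ a = 0 ↔ a = 0 :=
  ⟨fun h => upc_inj (κ := κ) hp (h.trans (upc_zero hp).symm), fun h => by rw [h, upc_zero hp]⟩

theorem upc_ep (hp : p.Prime) (a : ZMod p) : ep (p ^ (κ + 1)) (upc p κ a) = ep p a := by
  unfold ep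
  rw [upc_val hp]
  congr 2
  have h1 : (p : ℂ) ≠ 0 := Nat.cast_ne_zero.2 hp.ne_zero
  push_cast
  rw [pow_succ, mul_comm ((p : ℂ) ^ κ) p]
  exact mul_div_mul_right _ _ (pow_ne_zero _ h1)

end upc

section frm

variable {P : Type} [Group P] {N : Subgroup P} [hN : N.Normal] {n p : ℕ} {hn : Nk N (n + 1) = ⊥}

variable {R : Subgroup (Hs p (LL N n hn) (P ⧸ N))}

variable (R) in
/-- the projection of `R` to `P ⧸ N` -/
def rg : R →* P ⧸ N := prQ.comp R.subtype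

theorem rg_apply (r : R) : rg R r = r.1.g := rfl

variable (R) in
/-- the fibre product -/
def Pf : Subgroup (P × R) :=
  ((QuotientGroup.mk' N).comp (MonoidHom.fst P R)).eqLocus ((rg R).comp (MonoidHom.snd P R))

theorem pf_mem {w : P × R} : w ∈ Pf R ↔ (w.1 : P ⧸ N) = w.2.1.g := Iff.rfl

/-- an element of the fibre product -/
def Pf.mk (x : P) (r : R) (h : (x : P ⧸ N) = r.1.g) : Pf R := ⟨(x, r), h⟩

theorem Pf.ext' {w w' : Pf R} (h1 : w.1.1 = w'.1.1) (h2 : w.1.2 = w'.1.2) : w = w' :=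
  Subtype.ext (Prod.ext h1 h2)

theorem pf_g (w : Pf R) : (w.1.1 : P ⧸ N) = w.1.2.1.g := w.2

/-- a homomorphism into the fibre product -/
def Pf.lift {G : Type} [Group G] (f : G →* P) (g : G →* R)
    (h : ∀ x, (f x : P ⧸ N) = (g x).1.g) : G →* Pf R :=
  (f.prod g).codRestrict (Pf R) h

theorem Pf.lift_1 {G : Type} [Group G] (f : G →* P) (g : G →* R)
    (h : ∀ x, (f x : P ⧸ N) = (g x).1.g) (x : G) : (Pf.lift f g h x).1.1 = f x := rfl

theorem Pf.lift_2 {G : Type} [Group G] (f : G →* P) (g : G →* R)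
    (h : ∀ x, (f x : P ⧸ N) = (g x).1.g) (x : G) : (Pf.lift f g h x).1.2 = g x := rfl

variable (R) in
/-- the filtration of the fibre product -/
def frf : ℕ → Subgroup (Pf R)
  | 0 => ⊤
  | i + 1 => ((Nk N i).comap ((MonoidHom.fst P R).comp (Pf R).subtype)) ⊓
      ((MonoidHom.snd P R).comp (Pf R).subtype).ker

theorem mem_frf {i : ℕ} {w : Pf R} : w ∈ frf R (i + 1) ↔ w.1.1 ∈ Nk N i ∧ w.1.2 = 1 := Iff.rfl

theorem mem_frf' {i : ℕ} {w : Pf R} : w ∈ frf R i → w.1.1 ∈ fN N i := by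
  intro h
  cases i with
  | zero => exact Subgroup.mem_top _
  | succ i => exact h.1

theorem frf_one {w : Pf R} : w ∈ frf R 1 ↔ w.1.2 = 1 := by
  refine ⟨fun h => h.2, fun h => mem_frf.2 ⟨?_, h⟩⟩
  have h1 : (w.1.1 : P ⧸ N) = 1 := by
    rw [pf_g w, h]
    rfl
  exact (QuotientGroup.eq_one_iff w.1.1).1 h1

theorem frf_fl : Fl (frf R) where
  top := rfl
  anti i := by
    cases i with
    | zero => exact le_top
    | succ i => exact fun w hw => ⟨(fn_fl N).anti (i + 1) hw.1, hw.2⟩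
  com i j a ha b hb := by
    have h1 := (fn_fl N).com i j a.1.1 (mem_frf' ha) b.1.1 (mem_frf' hb)
    have h2 : (a * b * a⁻¹ * b⁻¹).1.1 = a.1.1 * b.1.1 * a.1.1⁻¹ * b.1.1⁻¹ := rfl
    have h3 : (a * b * a⁻¹ * b⁻¹).1.2 = a.1.2 * b.1.2 * a.1.2⁻¹ * b.1.2⁻¹ := rfl
    rcases i with _ | i
    · rcases j with _ | j
      · exact Subgroup.mem_top _
      · rw [Nat.zero_add] at h1 ⊢
        refine mem_frf.2 ⟨by rw [h2]; exact h1, ?_⟩
        rw [h3, (mem_frf.1 hb).2]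
        group
    · have h4 : i + 1 + j = i + j + 1 := by omega
      rw [h4] at h1 ⊢
      refine mem_frf.2 ⟨by rw [h2]; exact h1, ?_⟩
      rw [h3, (mem_frf.1 ha).2]
      group

variable {m : ℕ}

theorem pf_exp (hp : p.Prime) (hg : N = Subgroup.closure {x | x ∈ N ∧ x ^ p = 1}) {κ : ℕ}
    (hκ : ∀ x : P, x ^ p ^ κ = 1) (w : Pf R) : w ^ p ^ (κ + 2) = 1 := by
  have hq : ∀ g : P ⧸ N, g ^ p ^ κ = 1 := by
    intro g
    obtain ⟨x, rfl⟩ := QuotientGroup.mk_surjective g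
    rw [← QuotientGroup.mk_pow, hκ, QuotientGroup.mk_one]
  refine Pf.ext' ?_ (Subtype.ext ?_)
  · show w.1.1 ^ p ^ (κ + 2) = 1
    rw [pow_add, pow_mul, hκ, one_pow]
  · show w.1.2.1 ^ p ^ (κ + 2) = 1
    exact pow_hs hp (fun b => ll_exp hg b) hq _

theorem pf_pg (hp : p.Prime) (hg : N = Subgroup.closure {x | x ∈ N ∧ x ^ p = 1}) {κ : ℕ}
    (hκ : ∀ x : P, x ^ p ^ κ = 1) : IsPGroup p (Pf R) :=
  fun w => ⟨κ + 2, pf_exp hp hg hκ w⟩

instance [Finite P] [NeZero p] : Finite (Pf R) := inferInstance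

theorem pf_card [Finite P] [NeZero p] {c : ℕ} (hP : Nat.card P ≤ c) :
    Nat.card (Pf R) ≤ c * (c * (p ^ c * (p * c))) := by
  have h1 : Nat.card (Pf R) ≤ Nat.card (P × R) := Nat.card_le_card_of_injective _ Subtype.val_injective
  have h2 : Nat.card R ≤ Nat.card (Hs p (LL N n hn) (P ⧸ N)) :=
    Nat.card_le_card_of_injective _ Subtype.val_injective
  have h3 : Nat.card (LL N n hn) ≤ c := (ll_card).trans hP
  have h4 : Nat.card (P ⧸ N) ≤ c :=
    (Nat.card_le_card_of_surjective _ QuotientGroup.mk_surjective).trans hP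
  have hp1 : 0 < p := Nat.pos_of_ne_zero (NeZero.ne p)
  rw [Nat.card_prod] at h1
  refine h1.trans (Nat.mul_le_mul hP (h2.trans ((card_hs p _ _).trans ?_)))
  exact Nat.mul_le_mul h3 (Nat.mul_le_mul (Nat.pow_le_pow_right hp1 h3) (Nat.mul_le_mul le_rfl h4))

end frm

section fg

variable {P : Type} [Group P] {N : Subgroup P} [hN : N.Normal] {m p κ : ℕ}
  {hn : Nk N (m + 1 + 1) = ⊥} {R : Subgroup (Hs p (LL N (m + 1) hn) (P ⧸ N))}

/-- the fibre product with its filtration -/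
def frF (hp : p.Prime) (hg : N = Subgroup.closure {x | x ∈ N ∧ x ^ p = 1})
    (hκ : ∀ x : P, x ^ p ^ κ = 1) : FG (p ^ (κ + 2)) (m + 1) (Pf R) R where
  f := frf R
  fl := frf_fl
  bot := by
    rw [eq_bot_iff]
    intro w hw
    have h1 := mem_frf.1 hw
    rw [hn] at h1
    exact Subgroup.mem_bot.2 (Pf.ext' (Subgroup.mem_bot.1 h1.1) h1.2)
  ex := pf_exp hp hg hκ
  pi := (MonoidHom.snd P R).comp (Pf R).subtype
  sur r := by
    obtain ⟨x, hx⟩ := QuotientGroup.mk_surjective (s := N) r.1.g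
    exact ⟨Pf.mk x r hx, rfl⟩
  ker w := frf_one.symm

/-- the crossed functional -/
def kaF (κ : ℕ) (r : R) (w : Pf R) : ZMod (p ^ (κ + 2)) :=
  if hw : w.1.1 ∈ Nk N (m + 1) ∧ w.1.2 = 1 then upc p (κ + 1) (r.1.k (lm w.1.1 hw.1)) else 0

theorem kaF_of (r : R) {w : Pf R} (h : w.1.1 ∈ Nk N (m + 1)) (h' : w.1.2 = 1) :
    kaF κ r w = upc p (κ + 1) (r.1.k (lm w.1.1 h)) := dif_pos ⟨h, h'⟩

theorem kaF_out (r : R) {w : Pf R} (h : w ∉ frf R (m + 2)) : kaF κ r w = 0 :=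
  dif_neg fun h1 => h (mem_frf.2 h1)

theorem kaF_add (hp : p.Prime) (r : R) (x : Pf R) (hx : x ∈ frf R (m + 2)) (y : Pf R)
    (hy : y ∈ frf R (m + 2)) : kaF κ r (x * y) = kaF κ r x + kaF κ r y := by
  have hx' := mem_frf.1 hx
  have hy' := mem_frf.1 hy
  have hxy := mem_frf.1 ((frf R (m + 2)).mul_mem hx hy)
  rw [kaF_of r hx'.1 hx'.2, kaF_of r hy'.1 hy'.2, kaF_of r hxy.1 hxy.2, ← upc_add hp, ← map_add]
  rfl

theorem frf_nor (i : ℕ) : (frf R i).Normal := fl_nor frf_fl i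

theorem lm_inv_smul (x : P) {u : P} (hu : u ∈ Nk N (m + 1)) (hu' : x⁻¹ * u * x ∈ Nk N (m + 1)) :
    ((x : P ⧸ N)⁻¹ • (lm u hu : LL N (m + 1) hn)) = lm (x⁻¹ * u * x) hu' := by
  apply ll_inj
  rw [← QuotientGroup.mk_inv, ll_smul, ll_lm, ll_lm, inv_inv]

theorem kaF_mul (hp : p.Prime) (x : Pf R) (g : R) (u : Pf R) (hu : u ∈ frf R (m + 2)) :
    kaF κ (x.1.2 * g) u = kaF κ x.1.2 u + kaF κ g (x⁻¹ * u * x) := by
  have hu' := mem_frf.1 hu
  have h1 : x⁻¹ * u * x ∈ frf R (m + 2) := by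
    have h2 := (frf_nor (R := R) (m + 2)).conj_mem u hu x⁻¹
    rwa [inv_inv] at h2
  have h1' := mem_frf.1 h1
  rw [kaF_of _ hu'.1 hu'.2, kaF_of _ hu'.1 hu'.2, kaF_of _ h1'.1 h1'.2, ← upc_add hp]
  congr 1
  show ((x.1.2.1 * g.1 : Hs p (LL N (m + 1) hn) (P ⧸ N))).k _ = _
  rw [mul_k, AddMonoidHom.add_apply, tw_apply, ← pf_g x, lm_inv_smul x.1.1 hu'.1 h1'.1]
  rfl

/-- the crossed functional as `Kx` -/
def frK (hp : p.Prime) (hg : N = Subgroup.closure {x | x ∈ N ∧ x ^ p = 1})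
    (hκ : ∀ x : P, x ^ p ^ κ = 1) : Kx (frF hp hg hκ : FG (p ^ (κ + 2)) (m + 1) (Pf R) R) where
  ka := kaF κ
  add g x hx y hy := kaF_add hp g x hx y hy
  mul x g u hu := kaF_mul hp x g u hu

theorem frF_pi (hp : p.Prime) (hg : N = Subgroup.closure {x | x ∈ N ∧ x ^ p = 1})
    (hκ : ∀ x : P, x ^ p ^ κ = 1) (w : Pf R) :
    (frF hp hg hκ : FG (p ^ (κ + 2)) (m + 1) (Pf R) R).pi w = w.1.2 := rfl

theorem frF_f (hp : p.Prime) (hg : N = Subgroup.closure {x | x ∈ N ∧ x ^ p = 1})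
    (hκ : ∀ x : P, x ^ p ^ κ = 1) :
    (frF hp hg hκ : FG (p ^ (κ + 2)) (m + 1) (Pf R) R).f = frf R := rfl

/-- the label of a variable prime -/
def gP (g : P) (hg : g ∈ N) : Pf R := Pf.mk g 1 (by
  rw [(QuotientGroup.eq_one_iff g).2 hg]
  rfl)

theorem gP_mem {i : ℕ} {g : P} (hg : g ∈ N) (h : g ∈ Nk N i) : (gP g hg : Pf R) ∈ frf R (i + 1) :=
  mem_frf.2 ⟨h, rfl⟩

end fg

end H77.UY
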